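import Pool.Agent.P.MP_42ff57_nt.Main

namespace Pool.Agent.Results.MP_42ff57_nt.Triple

theorem result (n k : ℕ) (hkn : Nat.gcd k n = 1)
    (K : Type) [Field K] [Fintype K] [DecidableEq K] (hK : Fintype.card K = 2 ^ n)
    (Δ : Finset K)
    (hΔ : Δ = Finset.univ.image fun b : K =>
      b ^ (4 ^ k - 2 ^ k + 1) + (b + 1) ^ (4 ^ k - 2 ^ k + 1) + 1)
    (v₁ v₂ : K) (h₁ : v₁ ≠ 0) (h₂ : v₂ ≠ 0) (h₁₂ : v₁ ≠ v₂) :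
    ((Δ ×ˢ Δ ×ˢ Δ).filter
      fun p : K × K × K => v₁ * p.1 + v₂ * p.2.1 + (v₁ + v₂) * p.2.2 = 0).card =
        2 ^ (2 * n - 3) :=
  Pool.Agent.P.MP_42ff57_nt.main hkn hK h₁ h₂ h₁₂ Δ hΔ

end Pool.Agent.Results.MP_42ff57_nt.Triple
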